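import Mathlib
import Pool.Agent.L7h48.SG.Fin
import Pool.Agent.L7h48.SG.Lv
import Pool.Agent.L7h48.SG.J8

/-!
# The parity of Bloch–Kato Selmer groups of conjugate self-dual representations at odd primes

Let `p` be an odd prime number, let `K = ℚ(√-d)`, `d > 0`, be an imaginary quadratic field in which
`p` splits, `v` and `v̄` the places of `K` above `p` and `c` a complex conjugation. Let `L` be a finite
Galois extension of `K`, stable by `c`, such that

* `μ_p ⊆ L`, `p` does not divide `[L : K]`, `L / K` is unramified at the places that do not divide `p`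
  and there is only one place of `L` above `v`;
* (regularity) `L` has no cyclic extension of degree `p` which is unramified at the places that do not
  divide `p` and in which the place of `L` above `v` splits.

(`IsLevel`; `L` is given by its absolute Galois group `𝓛`.) Let `V` be a continuous representation of
`G_K`, of ANY dimension `n`, over a finite extension `F` of `ℚ_p`, which is unramified at the places
that do not divide `p`, residually unipotent on `G_L`, and has a symmetric pairing

`J(ρ(σ) x, ρ(c σ c) y) = χ(σ) J(x, y)`, `χ` the `p`-adic cyclotomic character,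

that is, `V^∨(1) ≅ V^c` with the sign `+1`. Let `U ⊆ H¹(K_v, V)` be ANY subspace and let
`U^⊥ ⊆ H¹(K_v̄, V)` be its orthogonal complement for the pairing
`H¹(K_v, V) × H¹(K_v̄, V) → H²(K_v, F(1))` (the cup product of `x` and of the conjugate of `y`).

Theorem: the restriction `H¹(K, V) → H¹(K_v, V)` is bijective on the classes unramified outside `p`;
the Selmer group of the classes of `H¹(K, V)` which are unramified outside `p`, are in `U` at `v` and
in `U^⊥` at `v̄`, has finite dimension at most `dim U` and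

`dim Sel_U(K, V) ≡ dim U` modulo `2`.

In particular the Selmer group is not zero if `dim U` is odd. The hypothesis is a condition on the
field `L` only; it is proved for `p = 3`, `K = ℚ(√-2)` and `L = K(μ_3)`.

## Bloch–Kato Selmer groups and the sign conjecture

Let `π` be a regular algebraic cuspidal automorphic representation of `GL_n` over `K` with
`π^∨ = π^c |·|⁻¹` which is unramified at the places that do not divide `p` and whose `p`-adic
realization `V` is residually unipotent on `G_L`. By the theorem of Bellaïche and Chenevier on the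
sign the pairing is symmetric. Let `U = H¹_f(K_v, V)`. By Bloch and Kato `U^⊥ = H¹_f(K_v̄, V)`, so the
Selmer group is `H¹_f(K, V)` (at the other places `V` is unramified and `H¹_f` is the unramified part),
and `dim U` is the number `h` of the positive Hodge–Tate weights of `V` at `v`
(`H⁰(K_v, V) = 0` by purity), and the sign of the functional equation is `ε(π) = (-1)^h`. So the
theorem gives the parity conjecture

`ε(π) = (-1) ^ dim H¹_f(K, V)`

for all these `π`, for every `n`, including the multiples of `4`, and so the statement of Q1: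
`ε(π) = -1` implies `H¹_f(K, V) ≠ 0`. No hypothesis is made on `π` above `p`, on the Hodge–Tate
weights, on the endoscopic classification or on the image of the representation, and `V` need not be
automorphic, geometric or irreducible.

These deductions use published theorems and are not part of the formal proof.

## The proof

Let `P` be the Galois group of the maximal `p`-extension of `L` unramified outside `p`, `Γ` the
Galois group of this extension over `K`. By the regularity the decomposition group of `v` is dense in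
`Γ`. By counting the characters of order `p` of the open subgroups of `P` (Minkowski–Dirichlet units on
the global side, Kummer theory on the local side), `P` is the maximal pro-`p` quotient of the
absolute Galois group of `L_v`, and `H¹(K, V) = H¹(K_v, V)`. So the Selmer group is the kernel of the
form `B(x, y) = x ∪ y^c` on `U`, with values in `H²(Γ, F(1))`. The cohomology of `P` with coefficients
in `ZMod p` is computed from the numbers of the generators of the open subgroups and from the norm
property of the cup product (Kummer theory of `L_v`): `dim H²(P, ZMod p) = 1`, so `H²(Γ, F(1))` has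
dimension at most one. The conjugation `c` acts trivially on it: the cup product of the cyclotomic
character modulo `p²` and of the Kummer character of `α / c(α)`, where `α` is a generator of a power
of the prime ideal of `v̄`, is fixed by `c`, and it is not trivial, because otherwise `α` would be a
local `p`-th power, hence a `p`-th power by the regularity. So
`B(y, x) = y ∪ x^c = - x^c ∪ y = -(x ∪ y^c)^c = -B(x, y)` is alternating, and its kernel has the
parity of `dim U`.

For the example, a cyclic cubic extension of `L = ℚ(√-2, √-3)` as in the regularity condition is given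
by the cube root of an element `a` whose ideal is the cube of an ideal, up to the primes above `3`; modulo
cubes `a` is in the group generated by `1 + √-2`, `1 - √-2`, `ζ_3` and `√-2 + √-3`, because the
rings `ℤ[√-2]`, `ℤ[ζ_3]` and `ℤ[√6]` are principal, and these elements are independent modulo the
cubes of `ℚ_3(√-3)`.

The formal proof is a joint work of the seats listed in `departures/helper48.md`.
-/

set_option autoImplicit false

namespace Pool.Agent.Results.MP_b4b3cb_nt.ParityOddPrimes

open Matrix IsLocalRing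

/-- An algebraic closure of `ℚ`. -/
abbrev QBar : Type := AlgebraicClosure ℚ

/-- The field `ℚ(s)`. It is `ℚ(√-d)` if `s² = -d`. -/
noncomputable abbrev K (s : QBar) : IntermediateField ℚ QBar := IntermediateField.adjoin ℚ {s}

/-- The absolute Galois group of `ℚ(s)`. -/
def Gal (s : QBar) : Type := QBar ≃ₐ[K s] QBar

/-- its group structure -/
noncomputable instance instGroupGal (s : QBar) : Group (Gal s) := AlgEquiv.aut (R := K s) (A₁ := QBar)

/-- its Krull topology -/
noncomputable instance instTopGal (s : QBar) : TopologicalSpace (Gal s) := krullTopology (K s) QBar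

/-- The action of the Galois group on `ℚ̄`. -/
noncomputable def app {s : QBar} (σ : Gal s) (x : QBar) : QBar := (show QBar ≃ₐ[K s] QBar from σ) x

/-- Embeddings of `ℚ̄` into the algebraic closure of `ℚ_p`. Each of them gives a place above `p` of all
subfields of `ℚ̄`. -/
abbrev Emb (p : ℕ) [Fact p.Prime] : Type := QBar →ₐ[ℚ] PadicAlgCl p

/-- The decomposition group of the place given by the embedding `ι` of `ℚ̄`. -/
def Dec {s : QBar} {p : ℕ} [Fact p.Prime] (ι : Emb p) : Subgroup (Gal s) where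
  carrier := {σ | ∃ τ : PadicAlgCl p ≃ₐ[ℚ_[p]] PadicAlgCl p, ∀ x, τ (ι x) = ι (app σ x)}
  mul_mem' := by
    rintro σ σ' ⟨τ, h⟩ ⟨τ', h'⟩
    refine ⟨τ * τ', fun x => ?_⟩
    rw [AlgEquiv.mul_apply, h', h]
    rfl
  one_mem' := ⟨1, fun _ => rfl⟩
  inv_mem' := by
    rintro σ ⟨τ, h⟩
    refine ⟨τ⁻¹, fun x => τ.injective ?_⟩
    rw [h]
    have h1 : app σ (app σ⁻¹ x) = x := AlgEquiv.apply_symm_apply (show QBar ≃ₐ[K s] QBar from σ) x
    rw [h1]
    exact AlgEquiv.apply_symm_apply τ (ι x)

/-- Its inertia group: the automorphisms which are trivial on the residue field. -/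
def Inr {s : QBar} {p : ℕ} [Fact p.Prime] (ι : Emb p) : Set (Gal s) :=
  {σ | ∃ τ : PadicAlgCl p ≃ₐ[ℚ_[p]] PadicAlgCl p, (∀ x, τ (ι x) = ι (app σ x)) ∧
    ∀ z : PadicAlgCl p, ‖z‖ ≤ 1 → ‖τ z - z‖ < 1}

/-- `σ` is in an inertia group at a place which does not divide `p`. -/
def InInertia (p : ℕ) {s : QBar} (σ : Gal s) : Prop :=
  ∃ (q : ℕ) (_ : Fact q.Prime) (ι : Emb q), q ≠ p ∧ σ ∈ (Inr ι : Set (Gal s))

/-- `c` is the complex conjugation of an embedding of `ℚ̄` into `ℂ`. -/
def IsConjugation (c : QBar ≃ₐ[ℚ] QBar) : Prop :=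
  ∃ j : QBar →+* ℂ, ∀ x, j (c x) = (starRingEnd ℂ) (j x)

/-- `cj` is the conjugation by `c` on the Galois group: `cj σ = c σ c`. -/
def IsConjBy {s : QBar} (c : QBar ≃ₐ[ℚ] QBar) (cj : Gal s → Gal s) : Prop :=
  ∀ σ x, app (cj σ) x = c (app σ (c x))

/-- The `p`-adic cyclotomic character. -/
noncomputable def cyc (p : ℕ) [Fact p.Prime] {s : QBar} (σ : Gal s) : ℤ_[p] :=
  (cyclotomicCharacter QBar p (show QBar ≃ₐ[K s] QBar from σ).toRingEquiv : ℤ_[p]ˣ)

/-- The subgroup `𝓛` is the absolute Galois group of a finite Galois extension `L` of `K`, of degree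
prime to `p`, which contains the `p`-th roots of unity, is unramified over `K` at the places that do
not divide `p`, has only one place above the place `v` given by `ι`, and satisfies the regularity
condition: it has no cyclic extension of degree `p` (given by its Galois group `N`), unramified at the
places that do not divide `p`, in which the place above `v` splits. -/
structure IsLevel (p : ℕ) [Fact p.Prime] {s : QBar} (𝓛 : Subgroup (Gal s)) (ι : Emb p) : Prop where
  isOpen : IsOpen (𝓛 : Set (Gal s))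
  normal : 𝓛.Normal
  index : ¬ p ∣ 𝓛.index
  roots : ∀ σ ∈ 𝓛, ∀ ζ : QBar, ζ ^ p = 1 → app σ ζ = ζ
  unramified : ∀ σ : Gal s, InInertia p σ → σ ∈ 𝓛
  place : ∀ g : Gal s, ∃ δ ∈ Dec ι, δ⁻¹ * g ∈ 𝓛
  regular : ¬ ∃ N : Subgroup (Gal s), IsOpen (N : Set (Gal s)) ∧ N ≤ 𝓛 ∧
    (N.subgroupOf 𝓛).Normal ∧ N.relIndex 𝓛 = p ∧ (∀ σ : Gal s, InInertia p σ → σ ∈ N) ∧
    ∀ σ ∈ Dec ι, σ ∈ 𝓛 → σ ∈ N

/-- The absolute Galois group of `K(μ_p)`. -/
noncomputable def MuLevel (p : ℕ) (s : QBar) : Subgroup (Gal s) where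
  carrier := {σ | ∀ ζ : QBar, ζ ^ p = 1 → app σ ζ = ζ}
  mul_mem' := by
    intro σ τ h h' ζ hζ
    have h1 : app (σ * τ) ζ = app σ (app τ ζ) := rfl
    rw [h1, h' ζ hζ, h ζ hζ]
  one_mem' := fun ζ _ => rfl
  inv_mem' := by
    intro σ h ζ hζ
    have h1 := congrArg (app σ⁻¹) (h ζ hζ)
    have h2 : app σ⁻¹ (app σ ζ) = ζ := AlgEquiv.symm_apply_apply (show QBar ≃ₐ[K s] QBar from σ) ζ
    rw [h2] at h1
    exact h1.symm

section representations

variable (p : ℕ) [Fact p.Prime] {s : QBar} {A : Type} [CommRing A] {n : ℕ}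

/-- The representation `ρ` is continuous, residually unipotent on `𝓛` and unramified outside `p`. -/
structure Admissible [IsLocalRing A] [TopologicalSpace A] (𝓛 : Subgroup (Gal s))
    (ρ : Gal s →* GL (Fin n) A) : Prop where
  cont : ∀ i j, Continuous fun σ => (ρ σ : Matrix (Fin n) (Fin n) A) i j
  unipotent : ∀ σ ∈ 𝓛, ∃ m : ℕ, ∀ i j,
    (((ρ σ : Matrix (Fin n) (Fin n) A) - 1) ^ m) i j ∈ maximalIdeal A
  unramified : ∀ σ : Gal s, InInertia p σ → ρ σ = 1

variable (F : Type) [Field F] [Algebra A F]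

/-- The matrix of `σ` on `V = F ^ n`. -/
noncomputable def mat (ρ : Gal s →* GL (Fin n) A) (σ : Gal s) : Matrix (Fin n) (Fin n) F :=
  (ρ σ : Matrix (Fin n) (Fin n) A).map (algebraMap A F)

/-- The cyclotomic character with values in `F`. -/
noncomputable def cycF [Algebra ℤ_[p] A] (σ : Gal s) : F :=
  algebraMap A F (algebraMap ℤ_[p] A (cyc p σ))

/-- `J` is a symmetric pairing of `V` and its conjugate with values in `F(1)`:
`J(σ x, (c σ c) y) = χ(σ) J(x, y)`. -/
structure Polarized [Algebra ℤ_[p] A] (cj : Gal s → Gal s) (ρ : Gal s →* GL (Fin n) A)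
    (J : Matrix (Fin n) (Fin n) F) : Prop where
  symm : J.IsSymm
  inv : ∀ (σ : Gal s) (x y : Fin n → F),
    (mat F ρ σ *ᵥ x) ⬝ᵥ (J *ᵥ (mat F ρ (cj σ) *ᵥ y)) = cycF p (A := A) F σ * (x ⬝ᵥ (J *ᵥ y))

/-- A function on a topological space with values in a finite product of copies of `F` is continuous
if a nonzero multiple of it is continuous with values in the lattice given by `A`. -/
def Cont {G : Type} [TopologicalSpace G] [TopologicalSpace A] {k : ℕ} (f : G → Fin k → F) : Prop :=
  ∃ (a : A) (b : G → Fin k → A), algebraMap A F a ≠ 0 ∧ Continuous b ∧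
    ∀ g i, algebraMap A F a * f g i = algebraMap A F (b g i)

/-- `z` is a continuous cocycle of the Galois group of `K` with values in `V`, unramified outside
`p`. -/
structure GlobalCocycle [TopologicalSpace A] (ρ : Gal s →* GL (Fin n) A) (z : Gal s → Fin n → F) :
    Prop where
  mul : ∀ σ τ, z (σ * τ) = z σ + mat F ρ σ *ᵥ z τ
  cont : Cont (A := A) F z
  unramified : ∀ σ : Gal s, InInertia p σ → z σ = 0

/-- `l` is a continuous cocycle of the decomposition group with values in `V`. -/
structure LocalCocycle [TopologicalSpace A] (ρ : Gal s →* GL (Fin n) A) (ι : Emb p)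
    (l : Dec (s := s) ι → Fin n → F) : Prop where
  mul : ∀ δ δ' : Dec (s := s) ι, l (δ * δ') = l δ + mat F ρ δ *ᵥ l δ'
  cont : Cont (A := A) F l

/-- The classes of the cocycles `z 0`, …, `z (k - 1)` of the subgroup `D` are linearly independent in
`H¹(D, V)`. -/
def Independent (ρ : Gal s →* GL (Fin n) A) (D : Subgroup (Gal s)) {k : ℕ}
    (z : Fin k → D → Fin n → F) : Prop :=
  ∀ a : Fin k → F, (∃ v : Fin n → F, ∀ δ : D, ∑ i, a i • z i δ = mat F ρ δ *ᵥ v - v) → a = 0

/-- The class of the cocycle `z` of the subgroup `D` is a linear combination of the classes of the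
cocycles `l i`. -/
def InSpan (ρ : Gal s →* GL (Fin n) A) (D : Subgroup (Gal s)) {k : ℕ}
    (l : Fin k → D → Fin n → F) (z : D → Fin n → F) : Prop :=
  ∃ (a : Fin k → F) (v : Fin n → F), ∀ δ : D, z δ = ∑ i, a i • l i δ + (mat F ρ δ *ᵥ v - v)

/-- The cup product in `H²(K_v, F(1))` of the class of `l` and of the conjugate of the class of `z` at
the place `v̄` is zero: the two-cocycle `(δ, δ') ↦ J(l(δ), (c δ c) z(c δ' c))` is the coboundary of a
continuous function `f` on the decomposition group of `v`. -/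
def Orthogonal [TopologicalSpace A] [Algebra ℤ_[p] A] (cj : Gal s → Gal s)
    (ρ : Gal s →* GL (Fin n) A) (J : Matrix (Fin n) (Fin n) F) (ι : Emb p)
    (l : Dec (s := s) ι → Fin n → F) (z : Gal s → Fin n → F) : Prop :=
  ∃ f : Dec (s := s) ι → F, Cont (A := A) F (fun δ (_ : Fin 1) => f δ) ∧
    ∀ δ δ' : Dec (s := s) ι, l δ ⬝ᵥ (J *ᵥ (mat F ρ (cj δ) *ᵥ z (cj δ'))) =
      f δ + cycF p (A := A) F (δ : Gal s) * f δ' - f (δ * δ')

/-- **The Selmer group.** The class of `z` is unramified outside `p`, it is in `U` at `v`, and it is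
in the orthogonal complement of `U` at the conjugate place `v̄`; here `U` is the subspace of
`H¹(K_v, V)` spanned by the classes of the `l i`. -/
structure InSelmer [TopologicalSpace A] [Algebra ℤ_[p] A] (cj : Gal s → Gal s)
    (ρ : Gal s →* GL (Fin n) A) (J : Matrix (Fin n) (Fin n) F) (ι : Emb p) {k : ℕ}
    (l : Fin k → Dec (s := s) ι → Fin n → F) (z : Gal s → Fin n → F) : Prop where
  global : GlobalCocycle p F ρ z
  local_v : InSpan F ρ (Dec ι) l (fun δ => z δ)
  local_conj : ∀ i, Orthogonal p F cj ρ J ι (l i) z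

end representations

/-! ### The proof -/

section proof

open Pool.Agent.L7h48.SG
open Pool.Agent.Z384 (act act_apply)

variable {s : QBar}

lemma cyc_isCyc (p : ℕ) [Fact p.Prime] : IsCyc p (s := s) (fun σ => cyc p (s := s) σ) := by
  intro σ m ζ hζ
  exact cyclotomicCharacter.spec p (n := m) (show QBar ≃ₐ[K s] QBar from σ).toRingEquiv ζ hζ

lemma mat_id {p : ℕ} [Fact p.Prime] {A : Type} [CommRing A] {F : Type} [Field F] [Algebra A F]
    [Algebra ℤ_[p] A] {n : ℕ}
    {cj : Gal s → Gal s} {ρ : Gal s →* GL (Fin n) A} {J : Matrix (Fin n) (Fin n) F}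
    (hJ : Polarized p F cj ρ J) (σ : Gal s) :
    (mat F ρ σ)ᵀ * J * mat F ρ (cj σ) = cycF p (A := A) F σ • J := by
  ext i j
  have h := hJ.inv σ (Pi.single i 1) (Pi.single j 1)
  rw [Pool.Agent.H76.PS.dot_trF, Matrix.mulVec_mulVec, Matrix.mulVec_mulVec,
    single_one_dotProduct, single_one_dotProduct, Matrix.mulVec_single_one,
    Matrix.mulVec_single_one] at h
  exact h

/-- the two forms of the regularity condition -/
lemma lev_of {p : ℕ} [Fact p.Prime] {𝓛 : Subgroup (Gal s)} {ι : Emb p} (h : IsLevel p 𝓛 ι) :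
    Lev p (s := s) 𝓛 ι where
  isOpen := h.isOpen
  normal := h.normal
  cop := h.index
  mu := h.roots
  unr := h.unramified
  dec := h.place
  reg := by
    intro φ hφ h1 h2
    by_contra hne
    obtain ⟨N, hN, hNL, hNn, hNi, hN0⟩ := hom_to_sub (G := QBar ≃ₐ[K s] QBar) h.isOpen hφ hne
    exact h.regular ⟨N, hN, hNL, hNn, hNi, fun σ hσ => hN0 σ (h.unramified σ hσ) (h1 σ hσ),
      fun σ hσ hσL => hN0 σ hσL (h2 σ hσ hσL)⟩

lemma of_lev {p : ℕ} [Fact p.Prime] {𝓛 : Subgroup (Gal s)} {ι : Emb p}
    (h : Lev p (s := s) 𝓛 ι) : IsLevel p 𝓛 ι where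
  isOpen := h.isOpen
  normal := h.normal
  index := h.cop
  roots := h.mu
  unramified := h.unr
  place := h.dec
  regular := by
    rintro ⟨N, hN, hNL, hNn, hNi, hNr, hNd⟩
    obtain ⟨φ, hφ, hne, h0⟩ := sub_to_hom (G := QBar ≃ₐ[K s] QBar) h.isOpen hN hNn hNi
    exact hne (h.reg φ hφ (fun σ hσ => h0 σ (hNr σ hσ)) fun σ hσ hσL => h0 σ (hNd σ hσ hσL))

lemma adm_of {p : ℕ} [Fact p.Prime] {𝓛 : Subgroup (Gal s)} {A : Type} [CommRing A] [IsLocalRing A]
    [TopologicalSpace A] {n : ℕ} {ρ : Gal s →* GL (Fin n) A} (h : Admissible p 𝓛 ρ) :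
    Rp p (s := s) 𝓛 ρ := ⟨h.cont, h.unipotent, h.unramified⟩

end proof

/-- **Parity of Selmer groups at odd primes.** Let `p` be an odd prime number which splits in
`K = ℚ(√-d)`, `d > 0`, let `ι` give the place `v` above `p` and let `𝓛` be a level (see `IsLevel`). Let
`V = F ^ n` be a representation of `G_K`, unramified outside `p` and residually unipotent on `𝓛`.

(1) Every class of `H¹(K_v, V)` is the restriction of a class of `H¹(K, V)` unramified outside `p`,
which is unique.

(2) Let `c` be a complex conjugation such that `c 𝓛 c = 𝓛` and let `J : V × V^c → F(1)` be a symmetric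
pairing. Let `l 0`, …, `l (k - 1)` be a basis of a subspace `U` of `H¹(K_v, V)`. Then the Selmer group
of the classes that are unramified outside `p`, in `U` at `v` and in the orthogonal complement of `U`
at `v̄` has a basis of `r ≤ k` classes, and `k - r` is even.

(3) If `p = 3` and `K = ℚ(√-2)` the absolute Galois group of `K(μ_3)` is a level for every `ι`, and it is
stable by the complex conjugations. -/
theorem result :
    (∀ (p : ℕ) [Fact p.Prime], p ≠ 2 → ∀ d : ℕ, 0 < d → (∃ t : ℚ_[p], t ^ 2 = -(d : ℚ_[p])) →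
      ∀ s : QBar, s ^ 2 = -(d : QBar) → ∀ (ι : Emb p) (𝓛 : Subgroup (Gal s)), IsLevel p 𝓛 ι →
      ∀ (A : Type) [CommRing A] [IsDomain A] [IsLocalRing A] [TopologicalSpace A]
        [IsTopologicalRing A] [Algebra ℤ_[p] A] [Module.Finite ℤ_[p] A] [Module.Free ℤ_[p] A],
        IsAdic (maximalIdeal A) →
      ∀ (F : Type) [Field F] [Algebra A F] [IsFractionRing A F] (n : ℕ) (ρ : Gal s →* GL (Fin n) A),
        Admissible p 𝓛 ρ →
        ((∀ l : Dec (s := s) ι → Fin n → F, LocalCocycle p F ρ ι l →
            ∃ z : Gal s → Fin n → F, GlobalCocycle p F ρ z ∧ ∀ δ : Dec (s := s) ι, z δ = l δ) ∧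
          (∀ z : Gal s → Fin n → F, GlobalCocycle p F ρ z → ∀ v : Fin n → F,
            (∀ δ : Dec (s := s) ι, z δ = mat F ρ δ *ᵥ v - v) → ∀ σ, z σ = mat F ρ σ *ᵥ v - v)) ∧
        ∀ c : QBar ≃ₐ[ℚ] QBar, IsConjugation c → ∀ cj : Gal s → Gal s, IsConjBy c cj →
          (∀ σ ∈ 𝓛, cj σ ∈ 𝓛) → ∀ J : Matrix (Fin n) (Fin n) F, Polarized p F cj ρ J →
        ∀ (k : ℕ) (l : Fin k → Dec (s := s) ι → Fin n → F),
          (∀ i, LocalCocycle p F ρ ι (l i)) → Independent F ρ (Dec ι) l →
          ∃ r : ℕ, r ≤ k ∧ Even (k - r) ∧ ∃ z : Fin r → Gal s → Fin n → F,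
            (∀ t, InSelmer p F cj ρ J ι l (z t)) ∧ Independent F ρ ⊤ (fun t σ => z t σ) ∧
            ∀ y, InSelmer p F cj ρ J ι l y → InSpan F ρ ⊤ (fun t σ => z t σ) (fun σ => y σ)) ∧
    ∀ s : QBar, s ^ 2 = -((2 : ℕ) : QBar) → ∀ ι : Emb 3, IsLevel 3 (MuLevel 3 s) ι ∧
      ∀ c : QBar ≃ₐ[ℚ] QBar, IsConjugation c → ∀ cj : Gal s → Gal s, IsConjBy c cj →
        ∀ σ ∈ MuLevel 3 s, cj σ ∈ MuLevel 3 s := by
  refine ⟨?_, ?_⟩
  · intro p _ hp d hd ht s hs ι 𝓛 h𝓛 A _ _ _ _ _ _ _ _ hA F _ _ _ n ρ hρ
    have hspl : Pool.Agent.L7h48.SG.Spl p s d := ⟨hp, hd, hs, ht⟩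
    have hLev := lev_of h𝓛
    have hnoeth : IsNoetherianRing A := IsNoetherianRing.of_finite ℤ_[p] A
    obtain ⟨h2m, h20, hfin, hcomp, -, hb, hsm⟩ := Pool.Agent.L7h79.SG.s_TOP p A hA _
      (Module.finBasis ℤ_[p] A)
    have hE0 := Pool.Agent.L7h79.SG.s_E0
    have hF2 := Pool.Agent.L7h48.SG.f_F2
    refine ⟨⟨fun l hl => ?_, fun z hz v hv => ?_⟩, ?_⟩
    · obtain ⟨z, hz, hzl⟩ := Pool.Agent.L7h48.SG.surj_glob (s := s) hF2 hspl hLev hA hcomp hfin h2m
        (ρ := ρ) (adm_of hρ) (l := l) ⟨hl.mul, hl.cont⟩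
      exact ⟨z, ⟨hz.mul, hz.cont, hz.unr⟩, hzl⟩
    · exact Pool.Agent.L7h48.SG.inj_glob (s := s) hE0 hF2 hspl hLev hA hcomp hfin h2m
        (ρ := ρ) (adm_of hρ) (c := z) ⟨hz.mul, hz.cont, hz.unramified⟩
        (v := v) (fun δ hδ => hv ⟨δ, hδ⟩)
    · intro c hc cj hcj hcL J hJ k l hl hind
      have hselmer : ∀ y, InSelmer p F cj ρ J ι l y ↔
          Pool.Agent.L7h48.SG.Sel (s := s) J ρ (fun σ => cyc p (s := s) σ) cj ι l y := by
        intro y
        constructor
        · rintro ⟨⟨h1, h2, h3⟩, h4, h5⟩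
          obtain ⟨a, v, h6⟩ := h4
          refine ⟨⟨h1, h2, h3⟩, ⟨a, v, h6⟩, fun i => ?_⟩
          obtain ⟨f, ⟨a, b, ha, hb, hab⟩, hf⟩ := h5 i
          exact ⟨f, ⟨a, fun g => b g 0, ha, (continuous_apply 0).comp hb, fun g => hab g 0⟩, hf⟩
        · rintro ⟨⟨h1, h2, h3⟩, h4, h5⟩
          refine ⟨⟨h1, h2, h3⟩, h4, fun i => ?_⟩
          obtain ⟨f, ⟨a, b, ha, hb, hab⟩, hf⟩ := h5 i
          exact ⟨f, ⟨a, fun g _ => b g, ha, continuous_pi fun _ => hb, fun g _ => hab g⟩, hf⟩
      obtain ⟨hχc, -⟩ := Pool.Agent.L7h48.SG.f_G1 p s _ (cyc_isCyc (s := s) p)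
      obtain ⟨r, hr, hev, z, hz, hzi, hzs⟩ := Pool.Agent.L7h48.SG.parity (s := s) hE0 hF2
        Pool.Agent.L7h48.SG.f_LG Pool.Agent.L7h79.SG.s_TOP Pool.Agent.L7h22.SG.Av.s_AV
        Pool.Agent.L7h48.SG.f_DAT hspl hLev
        (χ := fun σ => cyc p (s := s) σ) (cyc_isCyc p) hc (cj := cj) hcj hcL hχc hA
        (ρ := ρ) (adm_of hρ) hJ.symm (mat_id hJ) l
        (fun i => ⟨(hl i).mul, (hl i).cont⟩) hind
      refine ⟨r, hr, hev, z, fun t => (hselmer _).2 (hz t), fun a ⟨v, hv⟩ =>
        hzi a ⟨v, fun σ => hv ⟨σ, trivial⟩⟩, fun y hy => ?_⟩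
      obtain ⟨a, v, h⟩ := hzs y ((hselmer y).1 hy)
      exact ⟨a, v, fun σ => h (σ : Gal s)⟩
  · intro s hs ι
    refine ⟨of_lev (Pool.Agent.L7h48.SG.f_REG s hs ι), fun c hc cj hcj σ hσ ζ hζ => ?_⟩
    rw [hcj, hσ (c ζ) (by rw [← map_pow, hζ, map_one])]
    exact Pool.Agent.H76.PS.IsConj.invol hc ζ

end Pool.Agent.Results.MP_b4b3cb_nt.ParityOddPrimes
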