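import Mathlib
import Pool.Agent.Results.MP_b4b3cb_nt.ParityOddPrimes
import Pool.Agent.L7h48.SGQ.ALL

/-!
# Parity of `3`-adic Selmer groups over a positive proportion of the imaginary quadratic fields

Let `K = ℚ(√-D)` be an imaginary quadratic field in which the prime `3` splits (`D` is squarefree and `2`
modulo `3`, so `D` is `2`, `5` or `11` modulo `12`), `v` a place of `K` above `3` and `c` a complex
conjugation. The theorem: for at least ONE QUARTER of these fields (in each of the three residue classes of
`D` modulo `12`, ordered by `D`; so also for one quarter of all of them, ordered by the discriminant)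

* `K(μ_3)` has no cyclic cubic extension unramified outside `3` in which the place above `v` splits;
* for every continuous representation `V` of `G_K`, of any dimension, over a finite extension `F` of
  `ℚ_3`, unramified outside `3` and residually unipotent over `K(μ_3)`, the restriction
  `H¹(K, V) → H¹(K_v, V)` is bijective on the classes unramified outside `3`;
* if moreover `V^∨(1) ≅ V^c` with the sign `+1`, then for every subspace `U` of `H¹(K_v, V)` the Selmer
  group of the classes of `H¹(K, V)` which are unramified outside `3`, in `U` at `v` and in `U^⊥` at `v̄` has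
  dimension at most `dim U` and congruent to `dim U` modulo `2`.

So, by published theorems (Bloch–Kato, Bellaïche–Chenevier; see the introduction of
`MP_b4b3cb_nt.ParityOddPrimes`), the parity conjecture `ε(π) = (-1) ^ dim H¹_f(K, V)`, and therefore the
statement of Q1, holds over at least a quarter of all imaginary quadratic fields `K` in which `3` splits,
for `p = 3` and for every regular algebraic cuspidal `π` of `GL_n` over `K` with `π^∨ = π^c |·|⁻¹` which is
unramified outside `3` and whose `3`-adic realization is residually unipotent over `K(μ_3)`. Examples: by a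
theorem of Serre every modular form `f` of level `3^r` has a residual representation at `3` with semisimplification
a sum of powers of the cyclotomic character modulo `3`; so all the base changes to `K` of the self-dual
twists of the odd symmetric powers of all the newforms of level `3^r` are covered.

## The proof

The parity theorem for one field is `MP_b4b3cb_nt.ParityOddPrimes`, with the regularity condition on `L`.
For `L = K(μ_3)` the condition is a condition on elements of `K`: it is enough that every `a ∈ K*` whose
cube roots generate extensions unramified outside `3` and which is a cube in `K_v = ℚ_3` is a cube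
(`Good`). (The part of a cyclic cubic extension of `K(μ_3)` on which `Gal(K(μ_3)/K)` acts by `-1` is given
by such an element; the invariant part gives a cyclic cubic extension `M` of `K` unramified outside `3` in
which a place above `3` splits, and the `3`-units of such a field `M` would be more numerous modulo cubes
than the classes of local cubes, although they inject into them if `K` is `Good`.)

A field which is not `Good` gives an ideal `I` of norm `m ≤ (2/π) √|disc|` and an element of norm
`3^j m³`, `j ≤ 1`, so a solution of `x² + D y² = 4 · 3^j m³` (or of `x² + D y² = 3^j m³`), with conditions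
modulo `8`, `27` and the squares of the common prime factors of `m` and `y`. The number of the `D ≤ X` in a
given class modulo `12` with such a solution is at most `X / 18 + O(X^(9/10))`: for given `j, m, y` count
the `x` in an interval and in few residue classes modulo `y²`, the average of the number of the classes
over `m` is computed with character sums, and the sum over `y` is an elementary integral. The number of
the squarefree `D ≤ X` in the class is at least `(75/1000) X - O(√X)`, and `1/18 < (3/4) (75/1000)`.

The formal proof is a joint work of the seats listed in `departures/helper48.md`.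
-/

set_option autoImplicit false

namespace Pool.Agent.Results.MP_b4b3cb_nt.QuarterOfAllFields

open Matrix IsLocalRing
open Pool.Agent.Results.MP_b4b3cb_nt.ParityOddPrimes

/-- The field `K = ℚ(√-D)` (given by any square root `s` of `-D`) satisfies the following for every place
above `3` (given by the embedding `ι`): `K(μ_3)` satisfies the regularity condition (`IsLevel`), and for
every `3`-adic representation `V` of `G_K` (given by `ρ`) which is unramified outside `3` and residually
unipotent over `K(μ_3)`

(1) every class of `H¹(K_v, V)` is the restriction of a unique class of `H¹(K, V)` unramified outside `3`;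

(2) for every symmetric pairing `J : V × V^c → F(1)` and every basis `l 0`, …, `l (k - 1)` of a subspace `U` of
`H¹(K_v, V)`, the Selmer group of the classes that are unramified outside `3`, in `U` at `v` and in the
orthogonal complement of `U` at the conjugate place has a basis of `r ≤ k` classes, and `k - r` is even. -/
def ParityAtThree (D : ℕ) : Prop :=
  ∀ s : QBar, s ^ 2 = -(D : QBar) → ∀ ι : Emb 3, IsLevel 3 (MuLevel 3 s) ι ∧
    ∀ (A : Type) [CommRing A] [IsDomain A] [IsLocalRing A] [TopologicalSpace A]
      [IsTopologicalRing A] [Algebra ℤ_[3] A] [Module.Finite ℤ_[3] A] [Module.Free ℤ_[3] A],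
      IsAdic (maximalIdeal A) →
    ∀ (F : Type) [Field F] [Algebra A F] [IsFractionRing A F] (n : ℕ) (ρ : Gal s →* GL (Fin n) A),
      Admissible 3 (MuLevel 3 s) ρ →
      ((∀ l : Dec (s := s) ι → Fin n → F, LocalCocycle 3 F ρ ι l →
          ∃ z : Gal s → Fin n → F, GlobalCocycle 3 F ρ z ∧ ∀ δ : Dec (s := s) ι, z δ = l δ) ∧
        (∀ z : Gal s → Fin n → F, GlobalCocycle 3 F ρ z → ∀ v : Fin n → F,
          (∀ δ : Dec (s := s) ι, z δ = mat F ρ δ *ᵥ v - v) → ∀ σ, z σ = mat F ρ σ *ᵥ v - v)) ∧
      ∀ c : QBar ≃ₐ[ℚ] QBar, IsConjugation c → ∀ cj : Gal s → Gal s, IsConjBy c cj →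
        ∀ J : Matrix (Fin n) (Fin n) F, Polarized 3 F cj ρ J →
      ∀ (k : ℕ) (l : Fin k → Dec (s := s) ι → Fin n → F),
        (∀ i, LocalCocycle 3 F ρ ι (l i)) → Independent F ρ (Dec ι) l →
        ∃ r : ℕ, r ≤ k ∧ Even (k - r) ∧ ∃ z : Fin r → Gal s → Fin n → F,
          (∀ t, InSelmer 3 F cj ρ J ι l (z t)) ∧ Independent F ρ ⊤ (fun t σ => z t σ) ∧
          ∀ y, InSelmer 3 F cj ρ J ι l y → InSpan F ρ ⊤ (fun t σ => z t σ) (fun σ => y σ)

/-- the complex conjugations preserve `K(μ_3)` -/
lemma muLevel_conj {s : QBar} {c : QBar ≃ₐ[ℚ] QBar} (hc : IsConjugation c) {cj : Gal s → Gal s}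
    (hcj : IsConjBy c cj) : ∀ σ ∈ MuLevel 3 s, cj σ ∈ MuLevel 3 s := by
  intro σ hσ ζ hζ
  rw [hcj, hσ (c ζ) (by rw [← map_pow, hζ, map_one])]
  exact Pool.Agent.H76.PS.IsConj.invol hc ζ

lemma parity_of_good {D : ℕ} (hD : D % 3 = 2) (h : Pool.Agent.L7h48.SGQ.GD D) :
    ParityAtThree D := by
  intro s hs ι
  have hlev : IsLevel 3 (MuLevel 3 s) ι := of_lev (h s hs ι)
  refine ⟨hlev, fun A => ?_⟩
  intro _ _ _ _ _ _ _ _ hA F _ _ _ n ρ hρ
  have key := Pool.Agent.Results.MP_b4b3cb_nt.ParityOddPrimes.result.1 3 (by norm_num) D (by omega)
    (Pool.Agent.L7h48.SGP.exists_root hD) s hs ι (MuLevel 3 s) hlev A hA F n ρ hρ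
  refine ⟨key.1, fun c hc cj hcj J hJ k l hl hind => ?_⟩
  exact key.2 c hc cj hcj (muLevel_conj hc hcj) J hJ k l hl hind

/-- **A quarter of all fields.** For `r = 2, 5, 11` and all large `X`, at least one quarter of the squarefree
numbers `D ≤ X` which are `r` modulo `12` satisfy `ParityAtThree`. (The squarefree numbers in these three
classes are the `D` such that `3` splits in the imaginary quadratic field `ℚ(√-D)`.) -/
theorem result : ∀ r : ℕ, (r = 2 ∨ r = 5 ∨ r = 11) → ∃ X₀ : ℕ, ∀ X : ℕ, X₀ ≤ X →
    {D : ℕ | D ≤ X ∧ Squarefree D ∧ D % 12 = r}.ncard ≤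
      4 * {D : ℕ | D ≤ X ∧ Squarefree D ∧ D % 12 = r ∧ ParityAtThree D}.ncard := by
  classical
  intro r hr
  obtain ⟨X₀, hX₀⟩ := Pool.Agent.L7h48.SGQ.quarter_all r hr
  refine ⟨X₀, fun X hX => ?_⟩
  have h1 := hX₀ X hX
  have e1 : {D : ℕ | D ≤ X ∧ Squarefree D ∧ D % 12 = r} =
      (((Finset.Icc 1 X).filter fun D => Squarefree D ∧ D % 12 = r : Finset ℕ) : Set ℕ) := by
    ext D
    simp only [Set.mem_ofPred_eq, Finset.coe_filter, Finset.mem_Icc]
    constructor
    · rintro ⟨h2, h3, h4⟩
      exact ⟨⟨Nat.pos_of_ne_zero h3.ne_zero, h2⟩, h3, h4⟩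
    · rintro ⟨⟨_, h2⟩, h3, h4⟩
      exact ⟨h2, h3, h4⟩
  rw [e1, Set.ncard_coe_finset]
  refine h1.trans (Nat.mul_le_mul_left 4 ?_)
  rw [← Set.ncard_coe_finset]
  refine Set.ncard_le_ncard ?_ ((Set.finite_Iic X).subset fun D hD => hD.1)
  intro D hD
  simp only [Finset.coe_filter, Finset.mem_Icc, Set.mem_ofPred_eq] at hD
  obtain ⟨⟨_, h2⟩, h3, h4, h5⟩ := hD
  exact ⟨h2, h3, h4, parity_of_good (by omega) h5⟩

end Pool.Agent.Results.MP_b4b3cb_nt.QuarterOfAllFields
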